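import Pool.Agent.P8H58.Fin

/-!
# Alperin's weight conjecture follows from an approximate form for groups without small quotients

The definitions `IsBlock`, `numIrrBlock`, `numWtBlock`, `BAWC` are those of the files
`Pool/Agent/Y63/NV/{Defs,Bawc}.lean`: a block of `G` is given by its central character `B`,
`numIrrBlock B` is `l(B)`, the number of the irreducible characters of `G` over `F` in `B`,
`numWtBlock p red Q B` is the number of the weights `(Q, χ)` of `B` with first entry `Q`, and
`BAWC p red G` says that for every block `B` of `G` the number `l(B)` is the number of the `G`-classes of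
weights of `B`.

Proof. Let `G` be a group in the class without nontrivial normal `p`-subgroups and without normal
subgroups of index `p`, and let `e` be an element of the centre of `FG` with support in the commutator
subgroup. Put `H = S^k`, `n = |H|`, let `Y` be a cyclic group of prime order `q ≠ p`, let `V` be the group
of the functions `H → Y` with product `1` and `W = (G^H × V) ⋊ H` with `H` acting by shifts. The elements
of `W` whose coordinates in `G` have trivial product in the abelianization of `G` form a normal subgroup
`Γ`. Every homomorphism from `Γ` to a group `Q` is trivial if all homomorphisms from `H` to `Q` are,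
and `Γ` has no nontrivial normal `p`-subgroup. The `n` linear characters `λ_u` of `V`, the value at `u`
composed with a faithful character of `Y`, are permuted regularly by `H`. By Clifford theory for
modules and for weights, the element `e ⊗ ⋯ ⊗ e ⊗ ∑ λ_u` does not annihilate `l(e)^n` simple modules
and `w(e)^n` classes of weights of `Γ`, up to factors that are polynomial in `n`. So an estimate with
a factor `|Γ|^ε` for all `ε` gives `l(e) = w(e)`. The restriction `e` of the idempotent of a block `B` to
the commutator subgroup is annihilated exactly by the blocks which are not products of `B` with linear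
characters, and `B` has the same numbers as these. This proves the equality for `B`. The equality for
all groups with a normal subgroup in the class and of index a power of `p` follows by the starting
results on Alperin's conjecture (`Pool.Agent.Y63.NV.bawc_strong`).
-/

set_option autoImplicit false

open scoped Classical

noncomputable section

namespace Pool.Agent.Results.MP_78bba1_al.AsymptoticPerfect

open Pool.Agent.Y63.NV
open Pool.Agent.Y63.AWC (pSubgroupSetoid)

/-- `w(B)`: the number of the `G`-classes of weights of `B`; the sum is over representatives `Q` of the
classes of `p`-subgroups of `G`. -/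
def weights (p : ℕ) {F : Type} [Field F] (red : integralClosure ℤ ℂ →+* F) {G : Type} [Group G]
    (B : (G → F) → F) : ℕ :=
  ∑ᶠ c : Quotient (pSubgroupSetoid p G), numWtBlock p red c.out.1 B

/-- **Alperin's weight conjecture follows from an approximate form for groups without small
quotients.** Let `X` be a class of groups (e.g. of all groups) which is closed under isomorphisms,
subgroups, quotients by normal `p`-subgroups and extensions, and let `S` be a finite nonabelian simple
group in `X`. The following are equivalent.
(a) The blockwise Alperin weight conjecture holds for all finite groups `Γ` which have a normal subgroup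
in `X` of index a power of `p` (for example for all finite groups in `X`).
(b) For every `ε > 0` there is a `C` such that `l(B) ≤ C |Γ|^ε w(B)` and `w(B) ≤ C |Γ|^ε l(B)` for all
blocks `B` of all finite groups `Γ` in `X` such that `Γ` has no nontrivial normal `p`-subgroup and every
nontrivial quotient of `Γ` has a subgroup isomorphic to `S`; in particular `Γ` is perfect. -/
theorem result (p : ℕ) [Fact p.Prime] (F : Type) [Field F] [IsAlgClosed F] [CharP F p]
    (red : integralClosure ℤ ℂ →+* F) (X : ∀ (G : Type) [Group G], Prop)
    (hiso : ∀ (G H : Type) [Group G] [Group H], (G ≃* H) → X G → X H)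
    (hsub : ∀ (G : Type) [Group G] (H : Subgroup G), X G → X H)
    (hquot : ∀ (G : Type) [Group G] (M : Subgroup G) [M.Normal], IsPGroup p M → X G → X (G ⧸ M))
    (hext : ∀ (G : Type) [Group G] (N : Subgroup G) [N.Normal], X N → X (G ⧸ N) → X G)
    (S : Type) [Group S] [Finite S] [IsSimpleGroup S] (hc : ∃ s t : S, s * t ≠ t * s) (hS : X S) :
    (∀ (Γ : Type) [Group Γ] [Finite Γ] (G : Subgroup Γ) [G.Normal], X G → IsPGroup p (Γ ⧸ G) →
      ∀ B : (Γ → F) → F, IsBlock B → numIrrBlock B = weights p red B) ↔
    ∀ ε : ℝ, 0 < ε → ∃ C : ℝ, ∀ (Γ : Type) [Group Γ] [Finite Γ], X Γ →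
      (∀ P : Subgroup Γ, P.Normal → IsPGroup p P → P = ⊥) →
      (∀ (M : Subgroup Γ) [M.Normal], M ≠ ⊤ → ∃ f : S →* Γ ⧸ M, Function.Injective f) →
      ∀ B : (Γ → F) → F, IsBlock B →
        (numIrrBlock B : ℝ) ≤ C * (Nat.card Γ : ℝ) ^ ε * (weights p red B : ℝ) ∧
        (weights p red B : ℝ) ≤ C * (Nat.card Γ : ℝ) ^ ε * (numIrrBlock B : ℝ) := by
  obtain ⟨s, t, hst⟩ := hc
  have hX : Pool.Agent.P8H58.Cls p X :=
    ⟨⟨fun G H _ _ hG ⟨e⟩ => hiso G H e hG, fun G _ hG H => hsub G H hG,
      fun G _ hG M _ hM => hquot G M hM hG⟩, fun G _ N _ hN hG => hext G N hN hG⟩
  exact Pool.Agent.P8H58.main red hX hst hS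

end Pool.Agent.Results.MP_78bba1_al.AsymptoticPerfect
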