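import Pool.Agent.P8H58.Eqm

/-!
# Alperin's weight conjecture implies its equivariant form for cyclic groups of automorphisms

The definitions `IsBlock`, `IsClassFun`, `IsInvBlock`, `IsWt`, `centralValue`, `numIBr` are those of
the file `Pool/Agent/Y63/NV/Defs.lean`, `numIrrBlock` and `numWtBlock` those of
`Pool/Agent/Y63/NV/Bawc.lean`: a block of `G` is given by its central character `B`, `numIrrBlock B` is
`l(B)`, the number of the irreducible characters of `G` over `F` in `B`, `numWtBlock p red Q B` is the
number of the weights `(Q, χ)` of `B` with first entry `Q`; for a normal subgroup `G` of `Γ`,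
`IsInvBlock G B` says that the block `B` of `G` is `Γ`-invariant and `numIBr G B` is the number of the
`Γ`-invariant irreducible characters of `G` over `F` in `B`.

Proof. Let `G ≤ J ≤ H`. Then `J` is normal in `JK` and `JK/J` is a `p`-group, so the starting results on
Navarro's conjecture give the equality of the number of the `K`-invariant irreducible characters of `J`
over `F` on which a central element `z` of `FΓ` in `FG` acts as `1` and the weighted number of the
weights `(Q, χ)` of `JK` with `JQ = JK`, which by the count of Dade, Glauberman and Nagao is the number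
of the `K`-invariant classes of weights of `J`. Clifford theory for the cyclic group `J/G` of order prime
to `p`, for modules over `F` and for characters of defect zero, expresses both sides by the invariant
objects `ω` of `G` and the squares of the orders of their stabilizers in `J`: an object of `J` over `ω` is
`K`-invariant if and only if `ω` is. So the sum of `|J ∩ U_ω|²` over the `K`-invariant `ω`, where `U_ω` is
the stabilizer of `ω`, is the same for the two kinds of objects and for all `J`, and since `H/G` is cyclic
the numbers of the `ω` with `H ≤ U_ω` are equal. For an invariant block `B` there is a `z` which acts as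
`1` on the objects in `B` and only on these.
-/

set_option autoImplicit false

open scoped Classical

noncomputable section

namespace Pool.Agent.Results.MP_78bba1_al.Equivariant

open Pool.Agent.Y63.NV
open Pool.Agent.Y63.AWC (pSubgroupSetoid)

/-- `w(B)`: the number of the `G`-classes of weights of `B`; the sum is over representatives `Q` of the
classes of `p`-subgroups of `G`. -/
def weights (p : ℕ) {F : Type} [Field F] (red : integralClosure ℤ ℂ →+* F) {G : Type} [Group G]
    (B : (G → F) → F) : ℕ :=
  ∑ᶠ c : Quotient (pSubgroupSetoid p G), numWtBlock p red c.out.1 B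

/-- For a normal subgroup `G` of `Γ`, a `p`-subgroup `Q` of `G` and a block `B` of `G`: the number of the
irreducible characters `χ` of `N_G(Q)/Q` of `p`-defect zero such that the block of `G` induced by the
block of the inflation of `χ` is `B` and such that the `G`-class of `(Q, χ)` is invariant under `Γ`, that
is, for all `γ ∈ Γ` there is a `g ∈ G` such that the conjugation by `gγ` fixes `Q` and `χ`. -/
def numInvWtBlock (p : ℕ) {F : Type} [Field F] (red : integralClosure ℤ ℂ →+* F) {Γ : Type}
    [Group Γ] (G : Subgroup Γ) (Q : Subgroup G) (B : (G → F) → F) : ℕ :=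
  Nat.card {χ : Subgroup.normalizer (Q : Set G) → ℂ //
    IsWt p (Q.subgroupOf (Subgroup.normalizer (Q : Set G))) χ ∧
    (∀ f : G → F, IsClassFun f → centralValue red χ (fun x => f x) = B f) ∧
    ∀ γ : Γ, ∃ g ∈ G, (∀ x y : G, (y : Γ) = g * γ * x * (g * γ)⁻¹ → (x ∈ Q ↔ y ∈ Q)) ∧
      ∀ x y : Subgroup.normalizer (Q : Set G),
        ((y : G) : Γ) = g * γ * ((x : G) : Γ) * (g * γ)⁻¹ → χ x = χ y}

/-- The number of the `Γ`-invariant `G`-classes of weights of the block `B` of the normal subgroup `G`
of `Γ`; the sum is over representatives `Q` of the `G`-classes of `p`-subgroups of `G`. -/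
def invWeights (p : ℕ) {F : Type} [Field F] (red : integralClosure ℤ ℂ →+* F) {Γ : Type} [Group Γ]
    (G : Subgroup Γ) (B : (G → F) → F) : ℕ :=
  ∑ᶠ c : Quotient (pSubgroupSetoid p G), numInvWtBlock p red G c.out.1 B

/-- **Alperin's weight conjecture implies its equivariant form for cyclic groups of automorphisms.**
Let `X` be a class of groups (e.g. of all groups) which is closed under isomorphisms, subgroups and
quotients by normal `p`-subgroups. The following are equivalent.
(a) The blockwise Alperin weight conjecture holds for all finite groups in `X`.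
(b) Let `G`, `K`, `H` be normal subgroups of a finite group `Γ` such that `Γ/G` is the direct product of
the `p`-group `K/G` and the cyclic group `H/G` of order prime to `p` (for example, let `Γ/G` be cyclic),
with `H` in `X`, and let `B` be a `Γ`-invariant block of `G`. Then the number of the `Γ`-invariant
irreducible characters of `G` over `F` in `B` equals the number of the `Γ`-invariant `G`-classes of
weights of `B`. -/
theorem result (p : ℕ) [Fact p.Prime] (F : Type) [Field F] [IsAlgClosed F] [CharP F p]
    (red : integralClosure ℤ ℂ →+* F) (X : ∀ (G : Type) [Group G], Prop)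
    (hiso : ∀ (G H : Type) [Group G] [Group H], (G ≃* H) → X G → X H)
    (hsub : ∀ (G : Type) [Group G] (H : Subgroup G), X G → X H)
    (hquot : ∀ (G : Type) [Group G] (M : Subgroup G) [M.Normal], IsPGroup p M → X G → X (G ⧸ M)) :
    (∀ (G : Type) [Group G] [Finite G], X G →
      ∀ B : (G → F) → F, IsBlock B → numIrrBlock B = weights p red B) ↔
    ∀ (Γ : Type) [Group Γ] [Finite Γ] (G K H : Subgroup Γ) [G.Normal] [K.Normal] [H.Normal],
      K ⊓ H = G → K ⊔ H = ⊤ → IsPGroup p (K ⧸ G.subgroupOf K) →
      IsCyclic (H ⧸ G.subgroupOf H) → ¬ p ∣ Nat.card (H ⧸ G.subgroupOf H) → X H →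
      ∀ B : (G → F) → F, IsBlock B → IsInvBlock G B → numIBr G B = invWeights p red G B := by
  have hX : Closed p X :=
    ⟨fun G H _ _ hG ⟨e⟩ => hiso G H e hG, fun G _ hG H => hsub G H hG,
      fun G _ hG M _ hM => hquot G M hM hG⟩
  refine (Pool.Agent.P8H58.eqv_iff (p := p) red hX).trans ?_
  constructor
  · intro h Γ _ _ G K H _ _ _ h1 h2 h3 h4 h5 h6 B hB hI
    refine h Γ G K H h1 h2 (fun k hk => ?_) h4 h5 h6 B hB hI
    obtain ⟨a, ha⟩ := h3 ((⟨k, hk⟩ : K) : K ⧸ G.subgroupOf K)
    refine ⟨a, ?_⟩
    rw [← QuotientGroup.mk_pow, QuotientGroup.eq_one_iff] at ha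
    exact ha
  · intro h Γ _ _ G K H _ _ _ h1 h2 h3 h4 h5 h6 B hB hI
    refine h Γ G K H h1 h2 ?_ h4 h5 h6 B hB hI
    intro x
    obtain ⟨k, rfl⟩ := QuotientGroup.mk_surjective x
    obtain ⟨a, ha⟩ := h3 k k.2
    refine ⟨a, ?_⟩
    rw [← QuotientGroup.mk_pow, QuotientGroup.eq_one_iff]
    exact ha

end Pool.Agent.Results.MP_78bba1_al.Equivariant
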