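import Pool.Agent.P8H58.AW.Fin
import Pool.Agent.P8H58.KM.Spl

/-!
# Alperin's weight conjecture: the alternating sums of perfect groups modulo one prime

The definitions `IsBlock`, `numIrrBlock`, `numWtBlock`, `numIrrInd`, `numDzBlock` are those of the files
`Pool/Agent/Y63/NV/{Defs,Bawc,Stm5}.lean`: a block of `G` is given by its central character `B`,
`numIrrBlock B` is `l(B)`, the number of the irreducible characters of `G` over `F` in `B`,
`numWtBlock p red Q B` is the number of the weights `(Q, χ)` of `B` with first entry `Q`,
`numIrrInd red H B` is the number of the irreducible complex characters of the subgroup `H` in blocks `b`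
with `b^G = B`, and `numDzBlock p red B` is the number of the irreducible complex characters of
`p`-defect zero in `B`; it is not zero if and only if `B` is a block of defect zero.

Proof. By the theorem of Knörr and Robinson, Alperin's conjecture for the groups in `X` is equivalent to
`K(B) = 0` for all blocks of positive defect of all finite groups in `X` (`Pool.Agent.Y63.NV`,
`Pool.Agent.R674.KB`). By the theorem of Fong and Reynolds for semidirect products `V ⋊ H` with an
abelian normal `p'`-subgroup `V`, which holds for alternating sums over chains of `p`-subgroups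
(`Pool.Agent.P8H58.FR`), every block of positive defect of a group in `X` has the same sum `K` as a block
of a group all of whose nontrivial quotients contain `T`. Such groups are closed under direct products,
and `K(B ⊗ B) = K(B)²`. So the sums vanish if they are not positive, and subpolynomial upper bounds
imply `|K(B)| ≤ 1`, first for these groups and then for all groups in `X`. If `p` is odd, then
`2 K(B ≀ C₂) = K(B) (K(B) + 3)` (`Pool.Agent.Q90.WR.blkAlt_wr`). This excludes `K(B) = 1` in the presence
of the bounds. Let now `r` be a prime which divides the sums for the `T`-pairs. Then it divides `K(B)` for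
all blocks of positive defect of all finite groups in `X`, and `l(B) ≡ w(B)` modulo `r` follows by
induction on the order of the group (`Pool.Agent.P8H58.KM`): if `O_p(G) ≠ 1`, both numbers are sums of
those for `G/O_p(G)`; otherwise `K(B)` is the sum of `(-1)^|σ| (l(B_σ) - w(B_σ))` over the classes of
chains `σ`, and the stabilisers of the nonempty chains are smaller than `G`. The wreath products with the
group of order `r` show that a congruence modulo `r` for all groups in `X` implies the equality
(`Pool.Agent.P8H58.DL`, as for the result `CongruencePerfect`). The groups with few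
quotients can be chosen as large split extensions of elementary abelian groups (`Pool.Agent.P8H58.DS.to_PS`).
The blocks in the sense of `F` and `red` are
compared with the ones for a valuation ring of `ℂ` in `Pool.Agent.P8H58.AW.Dic`.

Parts of the proof were written by helper21, helper37, helper84 (directories `Pool/Agent/P8H*/KM`) and by
helper21, helper41, helper52, helper54, helper62, helper76, helper84, helper88 (directories
`Pool/Agent/P8H*/DL`); the rest by helper58.
-/

set_option autoImplicit false

open scoped Classical

noncomputable section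

namespace Pool.Agent.Results.MP_78bba1_al.ParityPerfect

open Pool.Agent.Y63.NV
open Pool.Agent.Y63.AWC (pSubgroupSetoid)
open Pool.Agent.Y63.KR (alternatingSum)

/-- `w(B)`: the number of the `G`-classes of weights of `B`; the sum is over representatives `Q` of the
classes of `p`-subgroups of `G`. -/
def weights (p : ℕ) {F : Type} [Field F] (red : integralClosure ℤ ℂ →+* F) {G : Type} [Group G]
    (B : (G → F) → F) : ℕ :=
  ∑ᶠ c : Quotient (pSubgroupSetoid p G), numWtBlock p red c.out.1 B

/-- The alternating sum of Knörr and Robinson, `K(B) = ∑_σ (-1)^|σ| k(B_σ)`, over representatives `σ` of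
the `G`-classes of chains of nontrivial `p`-subgroups of `G`, the empty chain included; `k(B_σ)` is the
number of the irreducible complex characters of the stabiliser of `σ` in blocks `b` with `b^G = B`. -/
def K (p : ℕ) {F : Type} [Field F] (red : integralClosure ℤ ℂ →+* F) {G : Type} [Group G]
    (B : (G → F) → F) : ℤ :=
  alternatingSum p G (fun H => (numIrrInd red H B : ℤ))

/-- `(G, B)` is a `T`-pair of the class `X`: `G` is a finite group in `X` without nontrivial normal
`p`-subgroups, every nontrivial quotient of `G` has a subgroup isomorphic to `T`, and `B` is a block of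
`G` which is not of defect zero. -/
def TPair (p : ℕ) {F : Type} [Field F] (red : integralClosure ℤ ℂ →+* F)
    (X : ∀ (G : Type) [Group G], Prop) (T : Type) [Group T] (G : Type) [Group G]
    (B : (G → F) → F) : Prop :=
  X G ∧ Finite G ∧ (∀ P : Subgroup G, P.Normal → IsPGroup p P → P = ⊥) ∧
    (∀ (M : Subgroup G) [M.Normal], M ≠ ⊤ → ∃ f : T →* G ⧸ M, Function.Injective f) ∧
    IsBlock B ∧ numDzBlock p red B = 0

/-- The blockwise weight conjecture `l(B) = w(B)`, for all blocks of all finite groups which have a
normal subgroup in `X` of index a power of `p` (for example of all finite groups in `X`). -/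
def AWC (p : ℕ) {F : Type} [Field F] (red : integralClosure ℤ ℂ →+* F)
    (X : ∀ (G : Type) [Group G], Prop) : Prop :=
  ∀ (Γ : Type) [Group Γ] [Finite Γ] (G : Subgroup Γ) [G.Normal], X G → IsPGroup p (Γ ⧸ G) →
    ∀ B : (Γ → F) → F, IsBlock B → numIrrBlock B = weights p red B

/-- `G` is the semidirect product of an elementary abelian normal `q`-subgroup `V` with `C_G(V) = V` and a
subgroup `H`. -/
def Split (q : ℕ) (G : Type) [Group G] : Prop :=
  ∃ V H : Subgroup G, V.Normal ∧ (∀ v ∈ V, v ^ q = 1) ∧
    Subgroup.centralizer (V : Set G) = V ∧ V.IsComplement' H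

/-- Subpolynomial upper bounds for the sums `K(B)` of the `T`-pairs. -/
def Bound (p : ℕ) {F : Type} [Field F] (red : integralClosure ℤ ℂ →+* F)
    (X : ∀ (G : Type) [Group G], Prop) (T : Type) [Group T] : Prop :=
  ∀ ε : ℝ, 0 < ε → ∃ c : ℝ, ∀ (G : Type) [Group G] (B : (G → F) → F), TPair p red X T G B →
    (K p red B : ℝ) ≤ c * (Nat.card G : ℝ) ^ ε

/-- **Alperin's weight conjecture, alternating sums of perfect groups modulo a prime.** Let `X` be a class of groups (e.g. of
all groups) which is closed under isomorphisms, subgroups, quotients by normal `p`-subgroups and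
extensions, and let `T` be a finite nonabelian simple group in `X`. The groups in `T`-pairs are perfect.
(1) Let `r` be a prime such that the group of order `r` is in `X` (for example a prime divisor of the
order of `T`); `r = 2` and `r = p` are allowed. The weight conjecture `AWC` holds if and only if `r` divides
`K(B)` for all `T`-pairs. Moreover, if `q` is a prime divisor of the order of `T` different from `p` and
`n` is a number, it is enough to consider the `T`-pairs `(G, B)` with `|G| > n` and `G = V ⋊ H` for an
elementary abelian `q`-group `V` which is its own centraliser in `G` (`Split q G`).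
(2) The weight conjecture `AWC` holds if and only if `K(B) ≤ 0` for all `T`-pairs.
(3) If for all `ε > 0` there is a `c` with `K(B) ≤ c |G|^ε` for all `T`-pairs, then `|K(B)| ≤ 1` for all
blocks which are not of defect zero of all finite groups in `X`.
(4) `AWC` holds if and only if these bounds hold and `K(B)` is even for all `T`-pairs.
(5) Let `p` be odd and let `T` contain an element of order two. Then `AWC` holds if and only if the
bounds hold. -/
theorem result (p : ℕ) [Fact p.Prime] (F : Type) [Field F] [IsAlgClosed F] [CharP F p]
    (red : integralClosure ℤ ℂ →+* F) (X : ∀ (G : Type) [Group G], Prop)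
    (hiso : ∀ (G H : Type) [Group G] [Group H], (G ≃* H) → X G → X H)
    (hsub : ∀ (G : Type) [Group G] (H : Subgroup G), X G → X H)
    (hquot : ∀ (G : Type) [Group G] (M : Subgroup G) [M.Normal], IsPGroup p M → X G → X (G ⧸ M))
    (hext : ∀ (G : Type) [Group G] (N : Subgroup G) [N.Normal], X N → X (G ⧸ N) → X G)
    (T : Type) [Group T] [Finite T] [IsSimpleGroup T] (hc : ∃ s t : T, s * t ≠ t * s) (hT : X T) :
    (∀ (G : Type) [Group G] (B : (G → F) → F), TPair p red X T G B → commutator G = ⊤) ∧
    (∀ r : ℕ, r.Prime → X (Multiplicative (ZMod r)) →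
      (AWC p red X ↔ ∀ (G : Type) [Group G] (B : (G → F) → F), TPair p red X T G B →
        (r : ℤ) ∣ K p red B) ∧
      ∀ q : ℕ, q.Prime → q ≠ p → q ∣ Nat.card T → ∀ n : ℕ,
        (AWC p red X ↔ ∀ (G : Type) [Group G] (B : (G → F) → F), TPair p red X T G B →
          n < Nat.card G → Split q G → (r : ℤ) ∣ K p red B)) ∧
    (AWC p red X ↔ ∀ (G : Type) [Group G] (B : (G → F) → F), TPair p red X T G B →
      K p red B ≤ 0) ∧
    (Bound p red X T → ∀ (G : Type) [Group G] [Finite G], X G → ∀ B : (G → F) → F,
      IsBlock B → numDzBlock p red B = 0 → |K p red B| ≤ 1) ∧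
    (AWC p red X ↔ Bound p red X T ∧ ∀ (G : Type) [Group G] (B : (G → F) → F),
      TPair p red X T G B → Even (K p red B)) ∧
    (p ≠ 2 → (∃ s : T, orderOf s = 2) → (AWC p red X ↔ Bound p red X T)) := by
  obtain ⟨s, t, hst⟩ := hc
  have hX : Closed p X :=
    ⟨fun G H _ _ hG ⟨e⟩ => hiso G H e hG, fun G _ hG H => hsub G H hG,
      fun G _ hG M _ hM => hquot G M hM hG⟩
  have hE : Pool.Agent.P8H58.FR.Ecl X :=
    ⟨fun G H _ _ hG ⟨e⟩ => hiso G H e hG, fun G _ hG H => hsub G H hG,
      fun G _ N _ hN hG => hext G N hN hG⟩
  obtain ⟨m1, m2, m3, m4⟩ := Pool.Agent.P8H58.AW.main red hX hE hst hT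
  refine ⟨?_, ?_, m1, m2, m3, fun h2 h3 => (m4 h2 h3).1⟩
  swap
  · intro r hr hXr
    have : Fact r.Prime := ⟨hr⟩
    refine ⟨Pool.Agent.P8H58.KM.main red hX hE hst hT r hXr, fun q hq hqp hqT n => ?_⟩
    refine (Pool.Agent.P8H58.KM.main_spl red hX hE hst hT r hXr hq hqp hqT n).trans ?_
    exact ⟨fun h G _ B hB hn hs => h G B hB hn ⟨hB.1, hB.2.1, hB.2.2.2.1, hs⟩,
      fun h G _ B hB hn hs => h G B hB hn hs.2.2.2⟩
  intro G _ B h
  by_contra hne
  obtain ⟨f, hf⟩ := h.2.2.2.1 (commutator G) hne
  apply hst
  apply hf
  rw [map_mul, map_mul]
  exact mul_comm (G := Abelianization G) (f s) (f t)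

end Pool.Agent.Results.MP_78bba1_al.ParityPerfect
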